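import Mathlib

/-!
The density `s_j(n) / n` of the iterated remainder sets does not converge, for every `j ≥ 2`.

For `r` with `(Q + 1) r < n ≤ (Q + 2) r` one has `r ∈ S_j(n)` if and only if `r` lies in one of the residue classes
`c n (mod m)`, where `(c, m)` runs through a finite set `C j Q` not depending on `n`. One compares the `n` divisible by all
small integers with the odd `n` divisible by all small odd integers: passing from the first to the second,
the classes are shifted `2`-adically, and the density of their union cannot decrease; for `Q = j + 2` it strictly increases.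
-/

set_option autoImplicit false
open Finset Filter Topology

namespace Pool.Agent.Results.MP_376bf0_nt.NoLimit

/-- the iterated remainder sets: `S 0 n = {1, ..., ⌊n/2⌋}`, `S (j+1) n = {n mod k : k ∈ S j n, k ≠ 0}` -/
def S : ℕ → ℕ → Finset ℕ
  | 0, n => Icc 1 (n / 2)
  | (j + 1), n => ((S j n).erase 0).image fun k => n % k

/-- the residue classes `c n (mod m)` describing `S j n` for `(Q + 1) r < n ≤ (Q + 2) r` -/
def C : ℕ → ℕ → Finset (ℤ × ℕ)
  | 0, Q => if 1 ≤ Q then {(0, 1)} else ∅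
  | (j + 1), Q => (Icc 1 Q).biUnion fun q => (C j (q - 1)).image fun cm => (1 - q * cm.1, q * cm.2)

theorem mem_C_succ {j Q : ℕ} {cm : ℤ × ℕ} : cm ∈ C (j + 1) Q ↔
    ∃ q, 1 ≤ q ∧ q ≤ Q ∧ ∃ c m, (c, m) ∈ C j (q - 1) ∧ cm = (1 - q * c, q * m) := by
  simp only [C, mem_biUnion, mem_Icc, mem_image, Prod.exists]
  constructor
  · rintro ⟨q, ⟨h1, h2⟩, c, m, h3, h4⟩
    exact ⟨q, h1, h2, c, m, h3, h4.symm⟩
  · rintro ⟨q, h1, h2, c, m, h3, h4⟩
    exact ⟨q, ⟨h1, h2⟩, c, m, h3, h4.symm⟩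

theorem mem_C_zero {Q : ℕ} {cm : ℤ × ℕ} : cm ∈ C 0 Q ↔ 1 ≤ Q ∧ cm = (0, 1) := by
  unfold C
  split_ifs with h
  · simp [h]
  · simp [h]

theorem C_dvd {j : ℕ} : ∀ {Q : ℕ} {cm : ℤ × ℕ}, cm ∈ C j Q → cm.2 ∣ Q.factorial := by
  induction j with
  | zero =>
    intro Q cm h
    rw [mem_C_zero] at h
    rw [h.2]
    exact one_dvd _
  | succ j ih =>
    intro Q cm h
    rw [mem_C_succ] at h
    obtain ⟨q, h1, h2, c, m, h3, rfl⟩ := h
    have h4 := ih h3
    have h5 : q * (q - 1).factorial = q.factorial := Nat.mul_factorial_pred (by omega)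
    exact (Nat.mul_dvd_mul_left q h4).trans (h5 ▸ Nat.factorial_dvd_factorial h2)

theorem mem_S_iff {j : ℕ} : ∀ {Q n r : ℕ}, 1 ≤ r → (Q + 1) * r < n → n ≤ (Q + 2) * r → n ≠ 2 * r →
    (r ∈ S j n ↔ ∃ cm ∈ C j Q, (cm.2 : ℤ) ∣ r - cm.1 * n) := by
  induction j with
  | zero =>
    intro Q n r h1 h2 h3 h4
    constructor
    · intro h
      rw [S, mem_Icc] at h
      refine ⟨(0, 1), ?_, by simp⟩
      rw [mem_C_zero]
      refine ⟨?_, rfl⟩
      by_contra hQ
      obtain rfl : Q = 0 := by omega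
      omega
    · rintro ⟨cm, hcm, -⟩
      rw [mem_C_zero] at hcm
      rw [S, mem_Icc]
      refine ⟨h1, ?_⟩
      have : 2 * r ≤ (Q + 1) * r := Nat.mul_le_mul_right r (by omega)
      omega
  | succ j ih =>
    intro Q n r h1 h2 h3 h4
    -- common facts
    have key : ∀ q k : ℕ, 1 ≤ q → n = q * k + r → r < k →
        (k ∈ S j n ↔ ∃ cm ∈ C j (q - 1), (cm.2 : ℤ) ∣ k - cm.1 * n) := by
      intro q k hq hn hk
      apply ih (by omega)
      · rw [Nat.sub_add_cancel hq]; omega
      · have : (q - 1 + 2) * k = q * k + k := by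
          obtain ⟨q', rfl⟩ : ∃ q', q = q' + 1 := ⟨q - 1, by omega⟩
          simp; ring
        omega
      · intro h
        rcases Nat.lt_or_ge q 2 with h5 | h5
        · obtain rfl : q = 1 := by omega
          omega
        · have : 2 * k ≤ q * k := Nat.mul_le_mul_right k h5
          omega
    constructor
    · intro h
      rw [S, mem_image] at h
      obtain ⟨k, hk, hr⟩ := h
      rw [mem_erase] at hk
      have hrk : r < k := by
        rw [← hr]
        exact Nat.mod_lt _ (Nat.pos_of_ne_zero hk.1)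
      have hn : n = n / k * k + r := by
        rw [← hr, mul_comm]
        exact (Nat.div_add_mod n k).symm
      obtain ⟨q, hq⟩ : ∃ q, q = n / k := ⟨_, rfl⟩
      rw [← hq] at hn
      have hrn : r < n := by
        have : 1 * r ≤ (Q + 1) * r := Nat.mul_le_mul_right r (by omega)
        omega
      have hq1 : 1 ≤ q := by
        by_contra h5
        obtain rfl : q = 0 := by omega
        omega
      obtain ⟨cm, hcm, hd⟩ := (key q k hq1 hn hrk).mp hk.2
      refine ⟨(1 - q * cm.1, q * cm.2), ?_, ?_⟩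
      · rw [mem_C_succ]
        refine ⟨q, hq1, ?_, cm.1, cm.2, hcm, rfl⟩
        by_contra h5
        have h6 : (Q + 2) * r ≤ (q + 1) * r := Nat.mul_le_mul_right r (by omega)
        have h7 : (q + 1) * r = q * r + r := by ring
        have h8 : q * r < q * k := Nat.mul_lt_mul_of_pos_left hrk hq1
        omega
      · show ((q * cm.2 : ℕ) : ℤ) ∣ (r : ℤ) - (1 - q * cm.1) * n
        have h5 : (r : ℤ) - (1 - q * cm.1) * n = -(q * (k - cm.1 * n)) := by
          have : (n : ℤ) = q * k + r := by exact_mod_cast hn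
          linear_combination -this
        rw [h5, dvd_neg]
        push_cast
        exact mul_dvd_mul_left _ hd
    · rintro ⟨cm, hcm, hd⟩
      rw [mem_C_succ] at hcm
      obtain ⟨q, hq1, hq2, c, m, hc, rfl⟩ := hcm
      have hd' : ((q * m : ℕ) : ℤ) ∣ (r : ℤ) - (1 - q * c) * n := hd
      have hrn : r < n := by
        have : 1 * r ≤ (Q + 1) * r := Nat.mul_le_mul_right r (by omega)
        omega
      have hqd : (q : ℤ) ∣ n - r := by
        have h5 : (q : ℤ) ∣ (r : ℤ) - (1 - q * c) * n := (by push_cast; exact dvd_mul_right _ _ : (q : ℤ) ∣ ((q * m : ℕ) : ℤ)).trans hd'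
        have h6 : (n : ℤ) - r = q * (c * n) - ((r : ℤ) - (1 - q * c) * n) := by ring
        rw [h6]
        exact dvd_sub (dvd_mul_right _ _) h5
      have hqd' : q ∣ n - r := by
        have : ((n - r : ℕ) : ℤ) = n - r := by push_cast [hrn.le]; ring
        exact_mod_cast this ▸ hqd
      obtain ⟨k, hk⟩ := hqd'
      have hn : n = q * k + r := by omega
      have hrk : r < k := by
        have h5 : (q + 1) * r ≤ (Q + 1) * r := Nat.mul_le_mul_right r (by omega)
        have h6 : (q + 1) * r = q * r + r := by ring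
        exact Nat.lt_of_mul_lt_mul_left (a := q) (by omega)
      rw [S, mem_image]
      refine ⟨k, ?_, ?_⟩
      · rw [mem_erase]
        refine ⟨by omega, (key q k hq1 hn hrk).mpr ⟨(c, m), hc, ?_⟩⟩
        have h5 : (r : ℤ) - (1 - q * c) * n = -(q * (k - c * n)) := by
          have : (n : ℤ) = q * k + r := by exact_mod_cast hn
          linear_combination -this
        rw [h5, dvd_neg] at hd'
        push_cast at hd'
        exact Int.dvd_of_mul_dvd_mul_left (by omega) hd'
      · rw [hn, mul_comm, Nat.mul_add_mod, Nat.mod_eq_of_lt hrk]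

/-! ### the classes -/

theorem C_nonempty {j : ℕ} : ∀ {Q : ℕ}, j + 1 ≤ Q → ∃ cm, cm ∈ C j Q := by
  induction j with
  | zero => exact fun {Q} h => ⟨_, mem_C_zero.mpr ⟨by omega, rfl⟩⟩
  | succ j ih =>
    intro Q h
    obtain ⟨⟨c, m⟩, hcm⟩ := ih (Q := Q - 1) (by omega)
    exact ⟨_, mem_C_succ.mpr ⟨Q, by omega, le_rfl, c, m, hcm, rfl⟩⟩

theorem exists_odd {j Q q : ℕ} (hj : 1 ≤ j) (hq : j + 1 ≤ q) (hqQ : q ≤ Q) (he : Even q) :
    ∃ cm ∈ C j Q, Odd cm.1 := by
  obtain ⟨i, rfl⟩ : ∃ i, j = i + 1 := ⟨j - 1, by omega⟩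
  obtain ⟨⟨c, m⟩, hcm⟩ := C_nonempty (j := i) (Q := q - 1) (by omega)
  refine ⟨_, mem_C_succ.mpr ⟨q, by omega, hqQ, c, m, hcm, rfl⟩, ?_⟩
  have : Even ((q : ℤ) * c) := (by exact_mod_cast he : Even (q : ℤ)).mul_right _
  exact odd_one.sub_even this

theorem exists_even {j Q q : ℕ} (hj : 2 ≤ j) (hq : j + 1 ≤ q) (hqQ : q ≤ Q) (ho : Odd q) :
    ∃ cm ∈ C j Q, Even cm.1 := by
  obtain ⟨i, rfl⟩ : ∃ i, j = i + 1 := ⟨j - 1, by omega⟩
  have he : Even (q - 1) := Nat.Odd.sub_odd ho odd_one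
  obtain ⟨⟨c, m⟩, hcm, hc⟩ := exists_odd (j := i) (Q := q - 1) (q := q - 1) (by omega) (by omega) le_rfl he
  refine ⟨_, mem_C_succ.mpr ⟨q, by omega, hqQ, c, m, hcm, rfl⟩, ?_⟩
  have : Odd ((q : ℤ) * c) := (by exact_mod_cast ho : Odd (q : ℤ)).mul hc
  exact odd_one.sub_odd this

theorem odd_bound {j : ℕ} : ∀ {Q : ℕ} {cm : ℤ × ℕ}, cm ∈ C j Q → Odd cm.2 → 2 * j + 1 ≤ Q := by
  induction j with
  | zero =>
    intro Q cm h _
    have := (mem_C_zero.mp h).1
    omega
  | succ j ih =>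
    intro Q cm h ho
    obtain ⟨q, h1, h2, c, m, h3, rfl⟩ := mem_C_succ.mp h
    have ho' : Odd (q * m) := ho
    rw [Nat.odd_mul] at ho'
    have h4 := ih h3 ho'.2
    obtain ⟨t, ht⟩ := ho'.1
    omega

/-! ### comparison of the counts -/

/-- the odd part -/
def od (m : ℕ) : ℕ := ordCompl[2] m

/-- an element of `F` whose modulus is divisible by the smallest power of `2` -/
noncomputable def sel (F : Finset (ℤ × ℕ)) : ℤ × ℕ :=
  if h : F.Nonempty then (F.exists_min_image (fun cm => cm.2.factorization 2) h).choose else (0, 1)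

theorem sel_spec {F : Finset (ℤ × ℕ)} (h : F.Nonempty) :
    sel F ∈ F ∧ ∀ cm ∈ F, (sel F).2.factorization 2 ≤ cm.2.factorization 2 := by
  rw [sel, dif_pos h]
  exact (F.exists_min_image (fun cm => cm.2.factorization 2) h).choose_spec

/-- the classes whose condition modulo the odd part is satisfied -/
def act (j Q : ℕ) (y : ℤ) : Finset (ℤ × ℕ) := (C j Q).filter fun cm => (od cm.2 : ℤ) ∣ y

def P (j Q : ℕ) (n : ℤ) (r : ℤ) : Prop := ∃ cm ∈ C j Q, (cm.2 : ℤ) ∣ r - cm.1 * n

instance (j Q : ℕ) (n r : ℤ) : Decidable (P j Q n r) := by unfold P; infer_instance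

/-- the residues modulo `Q!` in one of the classes -/
def res (j Q : ℕ) (n : ℤ) : Finset ℕ := (range Q.factorial).filter fun r : ℕ => P j Q n r

theorem od_dvd {m : ℕ} {y : ℤ} (h : (m : ℤ) ∣ y) : (od m : ℤ) ∣ y :=
  (by exact_mod_cast Nat.ordCompl_dvd m 2 : (od m : ℤ) ∣ m).trans h

theorem act_congr {j Q : ℕ} {y y' : ℤ} (h : (od Q.factorial : ℤ) ∣ y - y') : act j Q y = act j Q y' := by
  unfold act
  apply filter_congr
  intro cm hcm
  have h1 : (od cm.2 : ℤ) ∣ od Q.factorial := by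
    exact_mod_cast Nat.ordCompl_dvd_ordCompl_of_dvd (C_dvd hcm) 2
  have h2 := h1.trans h
  constructor
  · intro h3
    have := dvd_sub h3 h2
    rwa [sub_sub_cancel] at this
  · intro h3
    have := dvd_add h2 h3
    rwa [sub_add_cancel] at this

theorem sel_props {j Q : ℕ} {n y : ℤ} (hn : (Q.factorial : ℤ) ∣ n) (h : P j Q n y) :
    sel (act j Q y) ∈ C j Q ∧ ((sel (act j Q y)).2 : ℤ) ∣ y := by
  obtain ⟨cm, hcm, hd⟩ := h
  have h1 : (cm.2 : ℤ) ∣ y := by
    have h2 : (cm.2 : ℤ) ∣ cm.1 * n := ((by exact_mod_cast C_dvd hcm : (cm.2 : ℤ) ∣ Q.factorial).trans hn).mul_left _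
    have := dvd_add hd h2
    rwa [sub_add_cancel] at this
  have hne : (act j Q y).Nonempty := ⟨cm, mem_filter.mpr ⟨hcm, od_dvd h1⟩⟩
  obtain ⟨h2, h3⟩ := sel_spec hne
  obtain ⟨c, hc⟩ : ∃ c, c = sel (act j Q y) := ⟨_, rfl⟩
  rw [← hc] at h2 h3 ⊢
  have h4 := mem_filter.mp h2
  refine ⟨h4.1, ?_⟩
  have h5 : ((2 ^ c.2.factorization 2 : ℕ) : ℤ) ∣ y := by
    have h6 : 2 ^ c.2.factorization 2 ∣ cm.2 :=
      (pow_dvd_pow 2 (h3 cm (mem_filter.mpr ⟨hcm, od_dvd h1⟩))).trans (Nat.ordProj_dvd _ _)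
    exact (by exact_mod_cast h6 : ((2 ^ c.2.factorization 2 : ℕ) : ℤ) ∣ cm.2).trans h1
  have h7 : c.2 = 2 ^ c.2.factorization 2 * od c.2 := (Nat.ordProj_mul_ordCompl_eq_self c.2 2).symm
  have h0 : c.2 ≠ 0 := by
    intro h0
    have h8 := C_dvd h4.1
    rw [h0, zero_dvd_iff] at h8
    exact Nat.factorial_ne_zero _ h8
  have hcop : Nat.Coprime (2 ^ c.2.factorization 2) (od c.2) :=
    (Nat.coprime_ordCompl Nat.prime_two h0).pow_left _
  rw [h7]
  push_cast
  refine IsCoprime.mul_dvd ?_ (by exact_mod_cast h5) h4.2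
  exact_mod_cast Nat.isCoprime_iff_coprime.mpr hcop

/-- the shift -/
noncomputable def phi (j Q : ℕ) (n₁ : ℤ) (y : ℕ) : ℕ :=
  (((y : ℤ) + (sel (act j Q y)).1 * n₁) % (Q.factorial : ℤ)).toNat

theorem phi_cast (j Q : ℕ) (n₁ : ℤ) (y : ℕ) :
    (phi j Q n₁ y : ℤ) = ((y : ℤ) + (sel (act j Q y)).1 * n₁) % (Q.factorial : ℤ) :=
  Int.toNat_of_nonneg (Int.emod_nonneg _ (by exact_mod_cast Nat.factorial_ne_zero Q))

theorem phi_dvd (j Q : ℕ) (n₁ : ℤ) (y : ℕ) :
    (Q.factorial : ℤ) ∣ ((y : ℤ) + (sel (act j Q y)).1 * n₁) - phi j Q n₁ y := by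
  rw [phi_cast]
  exact Int.dvd_self_sub_emod

theorem phi_mem {j Q : ℕ} {n₀ n₁ : ℤ} (h₀ : (Q.factorial : ℤ) ∣ n₀) {y : ℕ} (hy : y ∈ res j Q n₀) :
    phi j Q n₁ y ∈ res j Q n₁ := by
  rw [res, mem_filter, mem_range] at hy
  obtain ⟨h1, h2⟩ := sel_props h₀ hy.2
  rw [res, mem_filter, mem_range]
  constructor
  · have := Int.emod_lt_of_pos ((y : ℤ) + (sel (act j Q y)).1 * n₁)
      (by exact_mod_cast Nat.factorial_pos Q : (0 : ℤ) < Q.factorial)
    rw [← phi_cast] at this
    exact_mod_cast this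
  · refine ⟨_, h1, ?_⟩
    have h3 : ((sel (act j Q y)).2 : ℤ) ∣ ((y : ℤ) + (sel (act j Q y)).1 * n₁) - phi j Q n₁ y :=
      (by exact_mod_cast C_dvd h1 : ((sel (act j Q y)).2 : ℤ) ∣ Q.factorial).trans (phi_dvd j Q n₁ y)
    have h4 := dvd_sub h2 h3
    have h5 : (y : ℤ) - (((y : ℤ) + (sel (act j Q y)).1 * n₁) - phi j Q n₁ y) =
        phi j Q n₁ y - (sel (act j Q y)).1 * n₁ := by ring
    rwa [h5] at h4

theorem phi_inj {j Q : ℕ} {n₁ : ℤ} (h₁ : (od Q.factorial : ℤ) ∣ n₁) {y y' : ℕ}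
    (hy : y < Q.factorial) (hy' : y' < Q.factorial) (h : phi j Q n₁ y = phi j Q n₁ y') : y = y' := by
  have h1 := dvd_sub (phi_dvd j Q n₁ y) (phi_dvd j Q n₁ y')
  rw [h] at h1
  have h2 : (Q.factorial : ℤ) ∣ (y - y') + ((sel (act j Q y)).1 - (sel (act j Q y')).1) * n₁ := by
    have h0 : ((y : ℤ) - y') + ((sel (act j Q y)).1 - (sel (act j Q y')).1) * n₁ =
        ((y : ℤ) + (sel (act j Q y)).1 * n₁ - phi j Q n₁ y') - ((y' : ℤ) + (sel (act j Q y')).1 * n₁ - phi j Q n₁ y') := by
      ring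
    rw [h0]
    exact h1
  have h3 : (od Q.factorial : ℤ) ∣ (y : ℤ) - y' := by
    have h4 := od_dvd h2
    have h5 := dvd_sub h4 (h₁.mul_left ((sel (act j Q y)).1 - (sel (act j Q y')).1))
    rwa [add_sub_cancel_right] at h5
  rw [act_congr h3, sub_self, zero_mul, add_zero] at h2
  have h6 : (y' : ℤ) % Q.factorial = y % Q.factorial := Int.modEq_iff_dvd.mpr h2
  rw [Int.emod_eq_of_lt (by omega) (by exact_mod_cast hy'), Int.emod_eq_of_lt (by omega) (by exact_mod_cast hy)] at h6
  exact_mod_cast h6.symm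

theorem res_le {j Q : ℕ} {n₀ n₁ : ℤ} (h₀ : (Q.factorial : ℤ) ∣ n₀) (h₁ : (od Q.factorial : ℤ) ∣ n₁) :
    (res j Q n₀).card ≤ (res j Q n₁).card := by
  refine card_le_card_of_injOn (phi j Q n₁) (fun y hy => phi_mem h₀ hy) ?_
  intro y hy y' hy' h
  have hy := mem_range.mp (mem_filter.mp hy).1
  have hy' := mem_range.mp (mem_filter.mp hy').1
  exact phi_inj h₁ hy hy' h

theorem all_even {j : ℕ} (hj : 2 ≤ j) {cm : ℤ × ℕ} (h : cm ∈ C j (j + 2)) : Even cm.2 := by
  by_contra hc
  have := odd_bound h (Nat.not_even_iff_odd.mp hc)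
  omega

theorem res_lt {j : ℕ} (hj : 2 ≤ j) {n₀ n₁ : ℤ} (h₀ : ((j + 2).factorial : ℤ) ∣ n₀)
    (h₁ : (od (j + 2).factorial : ℤ) ∣ n₁) (ho : Odd n₁) :
    (res j (j + 2) n₀).card + 1 ≤ (res j (j + 2) n₁).card := by
  -- classes of both parities
  obtain ⟨⟨c1, m1⟩, hc1, he1⟩ : ∃ cm ∈ C j (j + 2), Even cm.1 := by
    rcases Nat.even_or_odd j with h | h
    · exact exists_even hj (q := j + 1) le_rfl (by omega) (Even.add_one h)
    · exact exists_even hj (q := j + 2) (by omega) le_rfl (by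
        rw [Nat.odd_add]
        exact ⟨fun _ => even_two, fun _ => h⟩)
  obtain ⟨⟨c2, m2⟩, hc2, ho2⟩ : ∃ cm ∈ C j (j + 2), Odd cm.1 := by
    rcases Nat.even_or_odd j with h | h
    · exact exists_odd (by omega) (q := j + 2) (by omega) le_rfl (by
        rw [Nat.even_add]
        exact ⟨fun _ => even_two, fun _ => h⟩)
    · exact exists_odd (by omega) (q := j + 1) le_rfl (by omega) (Odd.add_one h)
  obtain ⟨K, hK⟩ : ∃ K, K = (j + 2).factorial := ⟨_, rfl⟩
  have hK0 : 0 < K := hK ▸ Nat.factorial_pos _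
  have hKe : (2 : ℤ) ∣ K := by
    have : 2 ∣ K := hK ▸ (all_even hj hc1).two_dvd.trans (C_dvd hc1)
    exact_mod_cast this
  -- their representatives
  have hz : ∀ c m, (c, m) ∈ C j (j + 2) → ((c * n₁) % K).toNat ∈ res j (j + 2) n₁ := by
    intro c m hc
    rw [res, mem_filter, mem_range, ← hK]
    have h1 : ((((c * n₁) % K).toNat : ℕ) : ℤ) = (c * n₁) % K :=
      Int.toNat_of_nonneg (Int.emod_nonneg _ (by exact_mod_cast hK0.ne'))
    constructor
    · have := Int.emod_lt_of_pos (c * n₁) (by exact_mod_cast hK0 : (0 : ℤ) < K)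
      rw [← h1] at this
      exact_mod_cast this
    · refine ⟨(c, m), hc, ?_⟩
      rw [h1]
      have h2 : (m : ℤ) ∣ K := by
        rw [hK]
        exact_mod_cast C_dvd hc
      have h3 := h2.trans (Int.dvd_self_sub_emod (x := c * n₁) (m := K))
      have h4 : (c * n₁) % K - c * n₁ = -(c * n₁ - (c * n₁) % K) := by ring
      show (m : ℤ) ∣ (c * n₁) % K - c * n₁
      rw [h4]
      exact (dvd_neg).mpr h3
  -- not both are in the image
  have himg : ∀ c m, (c, m) ∈ C j (j + 2) → ∀ y ∈ res j (j + 2) n₀, phi j (j + 2) n₁ y = ((c * n₁) % K).toNat →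
      (2 : ℤ) ∣ (sel (act j (j + 2) 0)).1 - c := by
    intro c m hc y hy he
    have h1 := phi_dvd j (j + 2) n₁ y
    rw [he, ← hK, Int.toNat_of_nonneg (Int.emod_nonneg _ (by exact_mod_cast hK0.ne'))] at h1
    have h2 : (K : ℤ) ∣ y + ((sel (act j (j + 2) y)).1 - c) * n₁ := by
      have h3 := dvd_sub h1 (Int.dvd_self_sub_emod (x := c * n₁) (m := K))
      have h4 : (y : ℤ) + ((sel (act j (j + 2) y)).1 - c) * n₁ =
        ((y : ℤ) + (sel (act j (j + 2) y)).1 * n₁ - (c * n₁) % K) - (c * n₁ - (c * n₁) % K) := by ring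
      rw [h4]
      exact h3
    have h3 : (od (j + 2).factorial : ℤ) ∣ (y : ℤ) - 0 := by
      rw [hK] at h2
      have h4 := dvd_sub (od_dvd h2) (h₁.mul_left ((sel (act j (j + 2) y)).1 - c))
      rwa [add_sub_cancel_right, ← sub_zero (y : ℤ)] at h4
    rw [act_congr h3] at h2
    have h5 : (2 : ℤ) ∣ y := by
      obtain ⟨h6, h7⟩ := sel_props h₀ (mem_filter.mp hy).2
      exact (by exact_mod_cast (all_even hj h6).two_dvd : (2 : ℤ) ∣ (sel (act j (j + 2) (y : ℤ))).2).trans h7
    have h6 : (2 : ℤ) ∣ ((sel (act j (j + 2) 0)).1 - c) * n₁ := (dvd_add_right h5).mp (hKe.trans h2)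
    rcases Int.prime_two.dvd_or_dvd h6 with h7 | h7
    · exact h7
    · exact absurd h7 (by rw [← even_iff_two_dvd, Int.not_even_iff_odd]; exact ho)
  have hsub : (res j (j + 2) n₀).image (phi j (j + 2) n₁) ⊂ res j (j + 2) n₁ := by
    refine (Finset.ssubset_iff_subset_ne).mpr ⟨?_, ?_⟩
    · intro z hz'
      obtain ⟨y, hy, rfl⟩ := mem_image.mp hz'
      exact phi_mem h₀ hy
    · intro he
      have g1 := hz c1 m1 hc1
      have g2 := hz c2 m2 hc2
      rw [← he] at g1 g2
      obtain ⟨y1, hy1, e1⟩ := mem_image.mp g1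
      obtain ⟨y2, hy2, e2⟩ := mem_image.mp g2
      have d1 := himg c1 m1 hc1 y1 hy1 e1
      have d2 := himg c2 m2 hc2 y2 hy2 e2
      have he1' : Even c1 := he1
      have ho2' : Odd c2 := ho2
      obtain ⟨a, ha⟩ := he1'
      obtain ⟨b, hb⟩ := ho2'
      omega
  have hcard := card_lt_card hsub
  rw [card_image_of_injOn] at hcard
  · omega
  · intro y hy y' hy' h
    exact phi_inj h₁ (mem_range.mp (mem_filter.mp hy).1) (mem_range.mp (mem_filter.mp hy').1) h

/-! ### counting in intervals -/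

theorem P_periodic (j Q : ℕ) (n : ℤ) : Function.Periodic (fun r : ℕ => P j Q n r) Q.factorial := by
  intro r
  have h : ∀ cm ∈ C j Q, ((cm.2 : ℤ) ∣ ((r + Q.factorial : ℕ) : ℤ) - cm.1 * n ↔ (cm.2 : ℤ) ∣ (r : ℤ) - cm.1 * n) := by
    intro cm hcm
    have h1 : (cm.2 : ℤ) ∣ Q.factorial := by exact_mod_cast C_dvd hcm
    have h2 : ((r + Q.factorial : ℕ) : ℤ) - cm.1 * n = ((r : ℤ) - cm.1 * n) + Q.factorial := by push_cast; ring
    rw [h2]
    exact (dvd_add_left h1)
  apply propext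
  constructor
  · rintro ⟨cm, hcm, hd⟩
    exact ⟨cm, hcm, (h cm hcm).mp hd⟩
  · rintro ⟨cm, hcm, hd⟩
    exact ⟨cm, hcm, (h cm hcm).mpr hd⟩

theorem count_blocks (j Q : ℕ) (n : ℤ) (x t : ℕ) :
    ((Ico x (x + t * Q.factorial)).filter fun r : ℕ => P j Q n r).card = t * (res j Q n).card := by
  induction t with
  | zero => simp
  | succ t ih =>
    have h1 : Ico x (x + (t + 1) * Q.factorial) = Ico x (x + t * Q.factorial) ∪
        Ico (x + t * Q.factorial) (x + t * Q.factorial + Q.factorial) := by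
      rw [Ico_union_Ico_eq_Ico (by omega) (by omega)]
      congr 1
      ring
    have h2 : Disjoint (Ico x (x + t * Q.factorial)) (Ico (x + t * Q.factorial) (x + t * Q.factorial + Q.factorial)) :=
      Ico_disjoint_Ico_consecutive _ _ _
    rw [h1, filter_union, card_union_of_disjoint (disjoint_filter_filter h2), ih,
      Nat.filter_Ico_card_eq_of_periodic _ _ _ (P_periodic j Q n), Nat.count_eq_card_filter_range]
    unfold res
    ring

theorem count_upper (j Q : ℕ) (n : ℤ) (x y : ℕ) :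
    (((Ico x y).filter fun r : ℕ => P j Q n r).card : ℝ) ≤
      ((y : ℝ) - x) / Q.factorial * (res j Q n).card + Q.factorial ∨ y < x := by
  rcases Nat.lt_or_ge y x with h | h
  · exact Or.inr h
  left
  have hK : 0 < Q.factorial := Nat.factorial_pos Q
  have h1 : Ico x y ⊆ Ico x (x + ((y - x) / Q.factorial + 1) * Q.factorial) := by
    apply Ico_subset_Ico_right
    have := Nat.lt_div_mul_add (a := y - x) hK
    have h3 : ((y - x) / Q.factorial + 1) * Q.factorial = (y - x) / Q.factorial * Q.factorial + Q.factorial := by ring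
    omega
  have h2 := card_le_card (filter_subset_filter (fun r : ℕ => P j Q n r) h1)
  rw [count_blocks] at h2
  have h3 : ((res j Q n).card : ℝ) ≤ Q.factorial := by
    exact_mod_cast (card_filter_le _ _).trans (card_range _).le
  have h4 : (((y - x) / Q.factorial : ℕ) : ℝ) ≤ ((y : ℝ) - x) / Q.factorial := by
    have := @Nat.cast_div_le ℝ _ _ _ (y - x) Q.factorial
    rwa [Nat.cast_sub h] at this
  calc (((Ico x y).filter fun r : ℕ => P j Q n r).card : ℝ)
      ≤ (((y - x) / Q.factorial + 1 : ℕ) : ℝ) * (res j Q n).card := by exact_mod_cast h2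
    _ = (((y - x) / Q.factorial : ℕ) : ℝ) * (res j Q n).card + (res j Q n).card := by push_cast; ring
    _ ≤ _ := by gcongr

theorem count_lower (j Q : ℕ) (n : ℤ) (x y : ℕ) :
    ((y : ℝ) - x) / Q.factorial * (res j Q n).card - Q.factorial ≤
      (((Ico x y).filter fun r : ℕ => P j Q n r).card : ℝ) := by
  have hK : 0 < Q.factorial := Nat.factorial_pos Q
  have hK' : (0 : ℝ) < Q.factorial := by exact_mod_cast hK
  have h3 : ((res j Q n).card : ℝ) ≤ Q.factorial := by
    exact_mod_cast (card_filter_le _ _).trans (card_range _).le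
  have h3' : (0 : ℝ) ≤ (res j Q n).card := Nat.cast_nonneg _
  rcases Nat.lt_or_ge y x with h | h
  · have h4 : ((y : ℝ) - x) / Q.factorial * (res j Q n).card ≤ 0 := by
      have : (y : ℝ) - x ≤ 0 := by
        have : (y : ℝ) ≤ x := by exact_mod_cast h.le
        linarith
      exact mul_nonpos_of_nonpos_of_nonneg (div_nonpos_of_nonpos_of_nonneg this hK'.le) h3'
    have h5 : (0 : ℝ) ≤ (((Ico x y).filter fun r : ℕ => P j Q n r).card : ℝ) := Nat.cast_nonneg _
    linarith
  have h1 : Ico x (x + ((y - x) / Q.factorial) * Q.factorial) ⊆ Ico x y := by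
    apply Ico_subset_Ico_right
    have := Nat.div_mul_le_self (y - x) Q.factorial
    omega
  have h2 := card_le_card (filter_subset_filter (fun r : ℕ => P j Q n r) h1)
  rw [count_blocks] at h2
  have h4 : ((y : ℝ) - x) / Q.factorial - 1 ≤ (((y - x) / Q.factorial : ℕ) : ℝ) := by
    have h5 : (y - x : ℕ) < (y - x) / Q.factorial * Q.factorial + Q.factorial := Nat.lt_div_mul_add hK
    have h6 : ((y : ℝ) - x) < (((y - x) / Q.factorial : ℕ) : ℝ) * Q.factorial + Q.factorial := by
      rw [← Nat.cast_sub h]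
      exact_mod_cast h5
    rw [sub_le_iff_le_add, div_le_iff₀ hK']
    linarith
  calc ((y : ℝ) - x) / Q.factorial * (res j Q n).card - Q.factorial
      ≤ ((y : ℝ) - x) / Q.factorial * (res j Q n).card - (res j Q n).card := by linarith
    _ = (((y : ℝ) - x) / Q.factorial - 1) * (res j Q n).card := by ring
    _ ≤ (((y - x) / Q.factorial : ℕ) : ℝ) * (res j Q n).card := by gcongr
    _ ≤ _ := by exact_mod_cast h2

/-! ### the regions -/

/-- `⌈n / (Q + 1)⌉` -/
def b (Q n : ℕ) : ℕ := (n + Q) / (Q + 1)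

theorem lt_b {Q n r : ℕ} : r < b Q n ↔ (Q + 1) * r < n := by
  unfold b
  rw [Nat.lt_iff_add_one_le, Nat.le_div_iff_mul_le (by omega)]
  have : (r + 1) * (Q + 1) = (Q + 1) * r + (Q + 1) := by ring
  omega

theorem le_b (Q n : ℕ) : (n : ℝ) / (Q + 1) ≤ b Q n := by
  have h : ¬ b Q n < b Q n := lt_irrefl _
  rw [lt_b] at h
  rw [div_le_iff₀ (by positivity)]
  have h1 : n ≤ (Q + 1) * b Q n := by omega
  have h2 : (n : ℝ) ≤ ((Q : ℝ) + 1) * b Q n := by exact_mod_cast h1
  linarith

theorem b_le (Q n : ℕ) : (b Q n : ℝ) ≤ n / (Q + 1) + 1 := by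
  rcases Nat.eq_zero_or_pos (b Q n) with h | h
  · rw [h]
    simp
    positivity
  · have h1 : b Q n - 1 < b Q n := by omega
    rw [lt_b] at h1
    have h2 : ((Q : ℝ) + 1) * ((b Q n : ℝ) - 1) ≤ n := by
      have : (((Q + 1) * (b Q n - 1) : ℕ) : ℝ) ≤ n := by exact_mod_cast h1.le
      rw [Nat.cast_mul, Nat.cast_sub h] at this
      push_cast at this
      linarith
    have h3 : (b Q n : ℝ) - 1 ≤ n / (Q + 1) := by
      rw [le_div_iff₀ (by positivity)]
      linarith
    linarith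

theorem b_anti (Q n : ℕ) : b (Q + 1) n ≤ b Q n := by
  by_contra h
  push Not at h
  rw [lt_b] at h
  have h1 : ¬ b Q n < b Q n := lt_irrefl _
  rw [lt_b] at h1
  have : (Q + 1) * b Q n ≤ (Q + 1 + 1) * b Q n := Nat.mul_le_mul_right _ (by omega)
  omega

/-- the part of the `Q`-th region in one of the classes -/
def part (j Q n : ℕ) : Finset ℕ := (Ico (b (Q + 1) n) (b Q n)).filter fun r : ℕ => P j Q n r

theorem mem_part {j Q n r : ℕ} (hn : 1 ≤ n) (hQ : 1 ≤ Q) :
    r ∈ part j Q n ↔ r ∈ S j n ∧ (Q + 1) * r < n ∧ n ≤ (Q + 2) * r := by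
  unfold part
  rw [mem_filter, mem_Ico, lt_b, ← not_lt, lt_b]
  constructor
  · rintro ⟨⟨h1, h2⟩, h3⟩
    have h1' : n ≤ (Q + 2) * r := by
      have : (Q + 1 + 1) * r = (Q + 2) * r := by ring
      omega
    have hr : 1 ≤ r := by
      by_contra h4
      obtain rfl : r = 0 := by omega
      omega
    refine ⟨(mem_S_iff hr h2 h1' ?_).mpr h3, h2, h1'⟩
    have : 2 * r ≤ (Q + 1) * r := Nat.mul_le_mul_right r (by omega)
    omega
  · rintro ⟨h1, h2, h3⟩
    have hr : 1 ≤ r := by
      by_contra h4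
      obtain rfl : r = 0 := by omega
      omega
    refine ⟨⟨?_, h2⟩, (mem_S_iff hr h2 h3 ?_).mp h1⟩
    · have : (Q + 1 + 1) * r = (Q + 2) * r := by ring
      omega
    · have : 2 * r ≤ (Q + 1) * r := Nat.mul_le_mul_right r (by omega)
      omega

theorem S_le {j n : ℕ} : ∀ {r : ℕ}, r ∈ S j n → 2 * r ≤ n := by
  induction j with
  | zero =>
    intro r h
    rw [S, mem_Icc] at h
    omega
  | succ j ih =>
    intro r h
    rw [S, mem_image] at h
    obtain ⟨k, hk, rfl⟩ := h
    rw [mem_erase] at hk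
    have h1 := ih hk.2
    have h2 : n % k < k := Nat.mod_lt _ (Nat.pos_of_ne_zero hk.1)
    omega

theorem S_lt {j n r : ℕ} (h : r ∈ S (j + 1) n) : 2 * r < n := by
  rw [S, mem_image] at h
  obtain ⟨k, hk, rfl⟩ := h
  rw [mem_erase] at hk
  have h1 := S_le hk.2
  have h2 : n % k < k := Nat.mod_lt _ (Nat.pos_of_ne_zero hk.1)
  omega

theorem S_upper (j n T : ℕ) (hj : 1 ≤ j) (hn : 1 ≤ n) :
    (S j n).card ≤ b (T + 1) n + ∑ Q ∈ Icc 1 T, (part j Q n).card := by
  obtain ⟨i, rfl⟩ : ∃ i, j = i + 1 := ⟨j - 1, by omega⟩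
  have h : S (i + 1) n ⊆ range (b (T + 1) n) ∪ (Icc 1 T).biUnion fun Q => part (i + 1) Q n := by
    intro r hr
    rw [mem_union, mem_range]
    by_cases hb : r < b (T + 1) n
    · exact Or.inl hb
    · right
      rw [lt_b] at hb
      have h2 := S_lt hr
      have hr1 : 1 ≤ r := by
        by_contra h4
        obtain rfl : r = 0 := by omega
        omega
      obtain ⟨t, ht⟩ : ∃ t, t = (n - 1) / r := ⟨_, rfl⟩
      have h3 : t * r ≤ n - 1 := by rw [ht]; exact Nat.div_mul_le_self _ _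
      have h4 : n - 1 < t * r + r := by rw [ht]; exact Nat.lt_div_mul_add hr1
      have h5 : 2 ≤ t := by
        rw [ht, Nat.le_div_iff_mul_le hr1]
        omega
      rw [mem_biUnion]
      refine ⟨t - 1, ?_, ?_⟩
      · rw [mem_Icc]
        refine ⟨by omega, ?_⟩
        by_contra h6
        have : (T + 1 + 1) * r ≤ t * r := Nat.mul_le_mul_right r (by omega)
        omega
      · rw [mem_part hn (by omega)]
        refine ⟨hr, ?_, ?_⟩
        · rw [show t - 1 + 1 = t by omega]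
          omega
        · rw [show t - 1 + 2 = t + 1 by omega, add_mul]
          omega
  calc (S (i + 1) n).card ≤ _ := card_le_card h
    _ ≤ _ := card_union_le _ _
    _ ≤ _ := by
      rw [card_range]
      exact Nat.add_le_add_left card_biUnion_le _

theorem S_lower (j n T : ℕ) (hn : 1 ≤ n) : ∑ Q ∈ Icc 1 T, (part j Q n).card ≤ (S j n).card := by
  rw [← card_biUnion]
  · apply card_le_card
    intro r hr
    obtain ⟨Q, hQ, hr⟩ := mem_biUnion.mp hr
    exact ((mem_part hn (mem_Icc.mp hQ).1).mp hr).1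
  · intro Q hQ Q' hQ' hne
    have main : ∀ Q Q' : ℕ, 1 ≤ Q → 1 ≤ Q' → Q < Q' → Disjoint (part j Q n) (part j Q' n) := by
      intro Q Q' h1 h2 h3
      rw [Finset.disjoint_left]
      intro r h4 h5
      have h6 := (mem_part hn h1).mp h4
      have h7 := (mem_part hn h2).mp h5
      have : (Q + 2) * r ≤ (Q' + 1) * r := Nat.mul_le_mul_right r (by omega)
      omega
    have h1 := (mem_Icc.mp (mem_coe.mp hQ)).1
    have h2 := (mem_Icc.mp (mem_coe.mp hQ')).1
    rcases Nat.lt_or_gt_of_ne hne with h | h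
    · exact main Q Q' h1 h2 h
    · exact (main Q' Q h2 h1 h).symm

/-- the weight of the `Q`-th region -/
noncomputable def w (Q : ℕ) : ℝ := 1 / (Q + 1) - 1 / (Q + 2)

theorem w_pos (Q : ℕ) : 0 < w Q := by
  unfold w
  rw [sub_pos]
  apply one_div_lt_one_div_of_lt <;> [positivity; linarith]

theorem part_upper (j Q n : ℕ) :
    ((part j Q n).card : ℝ) ≤ n * (w Q * (res j Q n).card / Q.factorial) + (1 + Q.factorial) := by
  have hK' : (0 : ℝ) < Q.factorial := by exact_mod_cast Nat.factorial_pos Q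
  have h3 : ((res j Q n).card : ℝ) ≤ Q.factorial := by
    exact_mod_cast (card_filter_le _ _).trans (card_range _).le
  rcases count_upper j Q n (b (Q + 1) n) (b Q n) with h | h
  · have h1 := b_le Q n
    have h2 := le_b (Q + 1) n
    push_cast at h2
    have h4 : (b Q n : ℝ) - b (Q + 1) n ≤ n * w Q + 1 := by
      unfold w
      have : (n : ℝ) * (1 / (Q + 1) - 1 / (Q + 2)) = n / (Q + 1) - n / (Q + 1 + 1) := by ring
      rw [this]
      linarith
    have h5 : ((b Q n : ℝ) - b (Q + 1) n) / Q.factorial * (res j Q n).card ≤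
        (n * w Q + 1) / Q.factorial * (res j Q n).card := by gcongr
    have h6 : ((n : ℝ) * w Q + 1) / Q.factorial * (res j Q n).card =
        n * (w Q * (res j Q n).card / Q.factorial) + (res j Q n).card / Q.factorial := by ring
    have h7 : ((res j Q n).card : ℝ) / Q.factorial ≤ 1 := by
      rw [div_le_one hK']
      exact h3
    have h8 : ((part j Q n).card : ℝ) ≤ ((b Q n : ℝ) - b (Q + 1) n) / Q.factorial * (res j Q n).card + Q.factorial := h
    linarith
  · exact absurd (b_anti Q n) (by omega)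

theorem part_lower (j Q n : ℕ) :
    n * (w Q * (res j Q n).card / Q.factorial) - (1 + Q.factorial) ≤ ((part j Q n).card : ℝ) := by
  have hK' : (0 : ℝ) < Q.factorial := by exact_mod_cast Nat.factorial_pos Q
  have h3 : ((res j Q n).card : ℝ) ≤ Q.factorial := by
    exact_mod_cast (card_filter_le _ _).trans (card_range _).le
  have h := count_lower j Q n (b (Q + 1) n) (b Q n)
  have h1 := le_b Q n
  have h2 := b_le (Q + 1) n
  push_cast at h2
  have h4 : n * w Q - 1 ≤ (b Q n : ℝ) - b (Q + 1) n := by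
    unfold w
    have : (n : ℝ) * (1 / (Q + 1) - 1 / (Q + 2)) = n / (Q + 1) - n / (Q + 1 + 1) := by ring
    rw [this]
    linarith
  have h5 : (n * w Q - 1) / Q.factorial * (res j Q n).card ≤
      ((b Q n : ℝ) - b (Q + 1) n) / Q.factorial * (res j Q n).card := by gcongr
  have h6 : ((n : ℝ) * w Q - 1) / Q.factorial * (res j Q n).card =
      n * (w Q * (res j Q n).card / Q.factorial) - (res j Q n).card / Q.factorial := by ring
  have h7 : ((res j Q n).card : ℝ) / Q.factorial ≤ 1 := by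
    rw [div_le_one hK']
    exact h3
  have h8 : ((b Q n : ℝ) - b (Q + 1) n) / Q.factorial * (res j Q n).card - Q.factorial ≤ ((part j Q n).card : ℝ) := h
  linarith

theorem res_zero {j Q : ℕ} {n : ℤ} (hn : (Q.factorial : ℤ) ∣ n) : res j Q n = res j Q 0 := by
  unfold res
  apply filter_congr
  intro r _
  have h : ∀ cm ∈ C j Q, ((cm.2 : ℤ) ∣ (r : ℤ) - cm.1 * n ↔ (cm.2 : ℤ) ∣ (r : ℤ) - cm.1 * 0) := by
    intro cm hcm
    have h1 : (cm.2 : ℤ) ∣ cm.1 * n := ((by exact_mod_cast C_dvd hcm : (cm.2 : ℤ) ∣ Q.factorial).trans hn).mul_left _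
    rw [mul_zero, sub_zero]
    exact dvd_sub_left h1
  constructor
  · rintro ⟨cm, hcm, hd⟩
    exact ⟨cm, hcm, (h cm hcm).mp hd⟩
  · rintro ⟨cm, hcm, hd⟩
    exact ⟨cm, hcm, (h cm hcm).mpr hd⟩

/-- For every `j ≥ 2` the sequence `s_j(n) / n` does not converge. -/
theorem result : ∀ j : ℕ, 2 ≤ j → ¬ ∃ L : ℝ, Tendsto (fun n : ℕ => ((S j n).card : ℝ) / n) atTop (𝓝 L) := by
  rintro j hj ⟨L, hL⟩
  obtain ⟨T, hT⟩ : ∃ T, T = (j + 4).factorial := ⟨_, rfl⟩
  have hTj : j + 4 ≤ T := hT ▸ Nat.self_le_factorial _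
  obtain ⟨A, hA⟩ : ∃ A : ℝ, A = ∑ Q ∈ Icc 1 T, w Q * (res j Q 0).card / Q.factorial := ⟨_, rfl⟩
  obtain ⟨E, hE⟩ : ∃ E : ℝ, E = ∑ Q ∈ Icc 1 T, (1 + (Q.factorial : ℝ)) := ⟨_, rfl⟩
  have hTf : 0 < T.factorial := Nat.factorial_pos T
  have hodd : 0 < od T.factorial := Nat.ordCompl_pos 2 hTf.ne'
  -- the first sequence
  have h0 : L ≤ A + 1 / (T + 2) := by
    have hsub : Tendsto (fun i : ℕ => (i + 1) * T.factorial) atTop atTop :=
      tendsto_atTop_mono (fun i => by show i ≤ (i + 1) * T.factorial; nlinarith) (tendsto_id (α := ℕ) (x := atTop))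
    have h1 := hL.comp hsub
    have h2 : Tendsto (fun i : ℕ => (A + 1 / (T + 2)) + (E + 1) / (((i + 1) * T.factorial : ℕ) : ℝ)) atTop
        (𝓝 ((A + 1 / (T + 2)) + 0)) :=
      tendsto_const_nhds.add ((tendsto_const_nhds).div_atTop (tendsto_natCast_atTop_atTop.comp hsub))
    rw [add_zero] at h2
    refine le_of_tendsto_of_tendsto' h1 h2 fun i => ?_
    obtain ⟨n, hn⟩ : ∃ n, n = (i + 1) * T.factorial := ⟨_, rfl⟩
    show ((S j ((i + 1) * T.factorial)).card : ℝ) / (((i + 1) * T.factorial : ℕ) : ℝ) ≤ _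
    rw [← hn]
    have hn1 : 1 ≤ n := by rw [hn]; exact Nat.mul_pos (by omega) hTf
    have hn0 : (0 : ℝ) < n := by exact_mod_cast hn1
    have h3 : ((S j n).card : ℝ) ≤ b (T + 1) n + ∑ Q ∈ Icc 1 T, ((part j Q n).card : ℝ) := by
      exact_mod_cast S_upper j n T (by omega) hn1
    have h4 : ∑ Q ∈ Icc 1 T, ((part j Q n).card : ℝ) ≤ n * A + E := by
      rw [hA, hE, mul_sum, ← sum_add_distrib]
      refine sum_le_sum fun Q hQ => ?_
      have h5 : (Q.factorial : ℤ) ∣ n := by
        rw [hn]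
        exact_mod_cast (Nat.factorial_dvd_factorial (mem_Icc.mp hQ).2).mul_left _
      have := part_upper j Q n
      rwa [res_zero h5] at this
    have h5 := b_le (T + 1) n
    rw [div_le_iff₀ hn0]
    have h6 : (A + 1 / (T + 2) + (E + 1) / n) * n = n * A + n / ((T + 1 : ℕ) + 1) + (E + 1) := by
      field_simp
      push_cast
      ring
    rw [h6]
    linarith
  -- the second sequence
  have h1 : A + 1 / (j + 4).factorial ≤ L := by
    have hsub : Tendsto (fun i : ℕ => i * T.factorial + od T.factorial) atTop atTop :=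
      tendsto_atTop_mono (fun i => by show i ≤ i * T.factorial + od T.factorial; nlinarith)
        (tendsto_id (α := ℕ) (x := atTop))
    have h1 := hL.comp hsub
    have h2 : Tendsto (fun i : ℕ => (A + 1 / (j + 4).factorial) - E / ((i * T.factorial + od T.factorial : ℕ) : ℝ)) atTop
        (𝓝 ((A + 1 / (j + 4).factorial) - 0)) :=
      tendsto_const_nhds.sub ((tendsto_const_nhds).div_atTop (tendsto_natCast_atTop_atTop.comp hsub))
    rw [sub_zero] at h2
    refine le_of_tendsto_of_tendsto' h2 h1 fun i => ?_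
    obtain ⟨n, hn⟩ : ∃ n, n = i * T.factorial + od T.factorial := ⟨_, rfl⟩
    show _ ≤ ((S j (i * T.factorial + od T.factorial)).card : ℝ) / ((i * T.factorial + od T.factorial : ℕ) : ℝ)
    rw [← hn]
    have hn1 : 1 ≤ n := by omega
    have hn0 : (0 : ℝ) < n := by exact_mod_cast hn1
    have h3 : ∑ Q ∈ Icc 1 T, ((part j Q n).card : ℝ) ≤ (S j n).card := by
      exact_mod_cast S_lower j n T hn1
    have hno : Odd (n : ℤ) := by
      have h4 : Even T.factorial := (even_iff_two_dvd).mpr (Nat.dvd_factorial (by norm_num) (by omega))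
      have h5 : Odd (od T.factorial) := by
        rw [← Nat.not_even_iff_odd, even_iff_two_dvd]
        exact Nat.not_dvd_ordCompl Nat.prime_two hTf.ne'
      have h6 : Odd n := by
        rw [hn]
        exact (h4.mul_left i).add_odd h5
      exact_mod_cast h6
    have hdv : ∀ Q ∈ Icc 1 T, (od Q.factorial : ℤ) ∣ n := by
      intro Q hQ
      have h4 : od Q.factorial ∣ od T.factorial :=
        Nat.ordCompl_dvd_ordCompl_of_dvd (Nat.factorial_dvd_factorial (mem_Icc.mp hQ).2) 2
      have h5 : od Q.factorial ∣ n := by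
        rw [hn]
        exact dvd_add ((h4.trans (Nat.ordCompl_dvd _ 2)).mul_left _) h4
      exact_mod_cast h5
    have h4 : n * (A + 1 / (j + 4).factorial) - E ≤ ∑ Q ∈ Icc 1 T, ((part j Q n).card : ℝ) := by
      have h5 : ∑ Q ∈ Icc 1 T, (n * (w Q * (res j Q n).card / Q.factorial) - (1 + (Q.factorial : ℝ))) ≤
          ∑ Q ∈ Icc 1 T, ((part j Q n).card : ℝ) := sum_le_sum fun Q _ => part_lower j Q n
      refine le_trans ?_ h5
      rw [sum_sub_distrib, ← hE, ← mul_sum]
      have h6 : A + 1 / (j + 4).factorial ≤ ∑ Q ∈ Icc 1 T, w Q * (res j Q n).card / Q.factorial := by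
        have hmem : j + 2 ∈ Icc 1 T := mem_Icc.mpr ⟨by omega, by omega⟩
        rw [hA, ← add_sum_erase _ _ hmem, ← add_sum_erase _ _ hmem]
        have h7 : ∑ Q ∈ (Icc 1 T).erase (j + 2), w Q * (res j Q 0).card / Q.factorial ≤
            ∑ Q ∈ (Icc 1 T).erase (j + 2), w Q * (res j Q n).card / Q.factorial := by
          refine sum_le_sum fun Q hQ => ?_
          have h8 : ((res j Q 0).card : ℝ) ≤ (res j Q n).card := by
            exact_mod_cast res_le (dvd_zero _) (hdv Q (mem_erase.mp hQ).2)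
          have := (w_pos Q).le
          gcongr
        have h8 : ((res j (j + 2) 0).card : ℝ) + 1 ≤ (res j (j + 2) n).card := by
          exact_mod_cast res_lt hj (dvd_zero _) (hdv _ hmem) hno
        have h9 : w (j + 2) * (res j (j + 2) 0).card / (j + 2).factorial + 1 / (j + 4).factorial =
            w (j + 2) * ((res j (j + 2) 0).card + 1) / (j + 2).factorial := by
          have hf : ((j + 4).factorial : ℝ) = (j + 4) * ((j + 3) * (j + 2).factorial) := by
            rw [Nat.factorial_succ, Nat.factorial_succ]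
            push_cast
            ring
          have hK' : (0 : ℝ) < (j + 2).factorial := by exact_mod_cast Nat.factorial_pos _
          rw [hf]
          unfold w
          push_cast
          field_simp
          ring
        have h10 : w (j + 2) * ((res j (j + 2) 0).card + 1) / (j + 2).factorial ≤
            w (j + 2) * (res j (j + 2) n).card / (j + 2).factorial := by
          have := (w_pos (j + 2)).le
          gcongr
        linarith
      have := mul_le_mul_of_nonneg_left h6 hn0.le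
      linarith
    rw [le_div_iff₀ hn0]
    have h6 : (A + 1 / (j + 4).factorial - E / n) * n = n * (A + 1 / (j + 4).factorial) - E := by
      field_simp
    rw [h6]
    linarith
  have h2 : (1 : ℝ) / (T + 2) < 1 / (j + 4).factorial := by
    rw [hT]
    apply one_div_lt_one_div_of_lt
    · exact_mod_cast Nat.factorial_pos _
    · linarith
  linarith

end Pool.Agent.Results.MP_376bf0_nt.NoLimit
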